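import Pool.Agent.Helper69.SW.St

/-!
# Project SW, module S2: the bound by Kato's inequality
-/

set_option autoImplicit false

open scoped BigOperators ENNReal Topology
open Pool.LE Pool.NL Pool.CL Pool.CB Filter

namespace Pool.SW

namespace S2M

/-- Concavity of `t/(α+βt)`. -/
theorem conc {α β s t : ℝ} (hα : 0 < α) (hβ : 0 < β) (hs : 0 ≤ s) (ht : 0 ≤ t) :
    t / (α + β * t) ≤ s / (α + β * s) + α / (α + β * s) ^ 2 * (t - s) := by
  have h1 : 0 < α + β * t := by positivity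
  have h2 : 0 < α + β * s := by positivity
  have h3 : s / (α + β * s) + α / (α + β * s) ^ 2 * (t - s) - t / (α + β * t) =
      α * β * (t - s) ^ 2 / ((α + β * s) ^ 2 * (α + β * t)) := by
    field_simp
    ring
  have h4 : 0 ≤ α * β * (t - s) ^ 2 / ((α + β * s) ^ 2 * (α + β * t)) := by positivity
  linarith

/-- Kato's inequality. -/
theorem kato (hBox : StBox) {d : ℕ} {α β : ℝ} (hα : 0 < α) (hβ : 0 < β) (U : Zd d → ℝ)
    (hU : ∀ x, 0 ≤ U x) (x : Zd d) :
    α / (α + β * U x) ^ 2 * AL U x ≤ AL (fun y => U y / (α + β * U y)) x := by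
  obtain ⟨-, -, -, -, -, -, -, -, -, -, -, hcard, -⟩ := hBox d
  unfold AL
  have h1 : ∑ b ∈ nb x, U b / (α + β * U b) ≤
      ∑ b ∈ nb x, (U x / (α + β * U x) + α / (α + β * U x) ^ 2 * (U b - U x)) :=
    Finset.sum_le_sum fun b _ => conc hα hβ (hU x) (hU b)
  have h2 : ∑ b ∈ nb x, (U x / (α + β * U x) + α / (α + β * U x) ^ 2 * (U b - U x)) =
      2 * d * (U x / (α + β * U x)) +
        α / (α + β * U x) ^ 2 * (∑ b ∈ nb x, U b - 2 * d * U x) := by
    rw [Finset.sum_add_distrib, ← Finset.mul_sum, Finset.sum_sub_distrib, Finset.sum_const,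
      Finset.sum_const, hcard x, nsmul_eq_mul, nsmul_eq_mul]
    push_cast
    ring
  have h3 : α / (α + β * U x) ^ 2 * (2 * d * U x - ∑ b ∈ nb x, U b) =
      -(α / (α + β * U x) ^ 2 * (∑ b ∈ nb x, U b - 2 * d * U x)) := by ring
  rw [h3]
  linarith

end S2M

open S2M in
theorem hS2 (hPhi : StPhi) (hUU : StUU) (hBox : StBox) : StS2 := by
  intro V θ θ₁ hV hθ hθ₁
  obtain ⟨α, β, hα, hβ, hab⟩ := hPhi V θ θ₁ hV hθ hθ₁
  have hα0 : 0 < α := by linarith
  refine ⟨1 / β, 1 / α, by positivity, by positivity, (div_lt_one hα0).mpr hα,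
    fun d n L c f hd hn hc hf hB x => ?_⟩
  obtain ⟨h1, -, h3⟩ := hUU d n L c V f hd hn hc hV (fun y => (hf y).1)
  obtain ⟨hU0, -, -, -, hAL⟩ := h3 θ₁ (by linarith) hB
  have hUnn : ∀ y, 0 ≤ UU L n c V f θ₁ y := fun y => (hU0 y).1
  have hsup : Sup L n c V f θ
      (fun y => UU L n c V f θ₁ y / (α + β * UU L n c V f θ₁ y)) := by
    refine ⟨fun y => ?_, fun y hy => ?_⟩
    · have := hUnn y
      positivity
    · refine le_trans ?_ (kato hBox hα0 hβ _ hUnn y)
      rw [hAL y hy]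
      have h4 := hab (UU L n c V f θ₁ y) (f y) (hUnn y) (hf y).1 (hf y).2
      have h5 : 0 ≤ c / (n : ℝ) ^ 2 := by positivity
      calc c / (n : ℝ) ^ 2 * (θ * f y + V / 2 *
            (UU L n c V f θ₁ y / (α + β * UU L n c V f θ₁ y)) ^ 2)
          ≤ c / (n : ℝ) ^ 2 * (α / (α + β * UU L n c V f θ₁ y) ^ 2 *
            (θ₁ * f y + V / 2 * UU L n c V f θ₁ y ^ 2)) := mul_le_mul_of_nonneg_left h4 h5
        _ = α / (α + β * UU L n c V f θ₁ y) ^ 2 *
            (c / (n : ℝ) ^ 2 * (θ₁ * f y + V / 2 * UU L n c V f θ₁ y ^ 2)) := by ring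
  have hle := (h1 θ _ hθ.le hsup).2 x
  have hu := hUnn x
  have hpos : 0 < α + β * UU L n c V f θ₁ x := by positivity
  refine ⟨hle.trans ?_, hle.trans ?_⟩
  · show UU L n c V f θ₁ x / (α + β * UU L n c V f θ₁ x) ≤ 1 / β
    rw [div_le_div_iff₀ hpos hβ]
    nlinarith
  · show UU L n c V f θ₁ x / (α + β * UU L n c V f θ₁ x) ≤ 1 / α * UU L n c V f θ₁ x
    rw [one_div, inv_mul_eq_div]
    exact div_le_div_of_nonneg_left hu hα0 (by nlinarith)

end Pool.SW
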